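import Pool.Agent.Q97.Renorm
import Pool.Agent.Q97.C0
import Pool.Agent.Q97.WeakNull

set_option autoImplicit false

/-!
# Daugavet index of thickness at least one and small weakly open sets
-/

namespace Pool.Agent.Results.MP_4410f0_an.DiameterLessThanTwo

/-- `W` is a relatively weakly open subset of the closed unit ball of `X`. -/
def RelWeaklyOpen {X : Type*} [NormedAddCommGroup X] [NormedSpace ℝ X] (W : Set X) : Prop :=
  ∃ U : Set (WeakSpace ℝ X), IsOpen U ∧ W = {y : X | ‖y‖ ≤ 1 ∧ toWeakSpace ℝ X y ∈ U}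

/-- The Daugavet index of thickness of `X`. -/
noncomputable def daugavetIndex (X : Type*) [NormedAddCommGroup X] [NormedSpace ℝ X] : ℝ :=
  sInf {r : ℝ | 0 < r ∧ ∃ x : X, ‖x‖ = 1 ∧ ∃ W : Set X, RelWeaklyOpen W ∧ W.Nonempty ∧
    W ⊆ Metric.closedBall x r}

open Q97 Q97.C0 Filter Topology

/-- The underlying vector space of the example. -/
abbrev V := ℝ × c0

/-- The seminorms of the example. -/
noncomputable def p (i : ℕ) (v : V) : ℝ := max (max |v.1| |v.2 i|) |v.2 i - v.1|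

theorem p_le_iff {i : ℕ} {v : V} {b : ℝ} :
    p i v ≤ b ↔ |v.1| ≤ b ∧ |v.2 i| ≤ b ∧ |v.2 i - v.1| ≤ b := by
  unfold p
  rw [max_le_iff, max_le_iff, and_assoc]

theorem p_add (i : ℕ) (x y : V) : p i (x + y) ≤ p i x + p i y := by
  have hx := p_le_iff.mp (le_refl (p i x))
  have hy := p_le_iff.mp (le_refl (p i y))
  rw [p_le_iff]
  refine ⟨?_, ?_, ?_⟩
  · rw [Prod.fst_add]
    exact (abs_add_le _ _).trans (add_le_add hx.1 hy.1)
  · rw [Prod.snd_add, ZeroAtInftyContinuousMap.add_apply]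
    exact (abs_add_le _ _).trans (add_le_add hx.2.1 hy.2.1)
  · rw [Prod.snd_add, ZeroAtInftyContinuousMap.add_apply, Prod.fst_add, add_sub_add_comm]
    exact (abs_add_le _ _).trans (add_le_add hx.2.2 hy.2.2)

theorem p_smul (i : ℕ) (c : ℝ) (x : V) : p i (c • x) = ‖c‖ * p i x := by
  unfold p
  rw [Prod.smul_fst, Prod.smul_snd, ZeroAtInftyContinuousMap.smul_apply, smul_eq_mul, smul_eq_mul,
    ← mul_sub, abs_mul, abs_mul, abs_mul, Real.norm_eq_abs, mul_max_of_nonneg _ _ (abs_nonneg c),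
    mul_max_of_nonneg _ _ (abs_nonneg c)]

theorem p_le (i : ℕ) (x : V) : p i x ≤ 2 * ‖x‖ := by
  have h1 : |x.1| ≤ ‖x‖ := norm_fst_le x
  have h2 : |x.2 i| ≤ ‖x‖ := (abs_apply_le x.2 i).trans (norm_snd_le x)
  have h0 := norm_nonneg x
  rw [p_le_iff]
  refine ⟨by linarith, by linarith, ?_⟩
  have := abs_sub (x.2 i) x.1
  linarith

theorem norm_le_of_p_le (x : V) (b : ℝ) (h : ∀ i, p i x ≤ b) : ‖x‖ ≤ 1 * b := by
  have hb : 0 ≤ b := (abs_nonneg _).trans (p_le_iff.mp (h 0)).1
  rw [one_mul, Prod.norm_def]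
  refine max_le (p_le_iff.mp (h 0)).1 ?_
  rw [norm_le_iff hb]
  exact fun i => (p_le_iff.mp (h i)).2.1

/-- The equivalent norm of the example. -/
noncomputable def E : EqNorm ℝ V :=
  EqNorm.ofSup p p_add p_smul 2 p_le 1 norm_le_of_p_le

theorem p_le_N (n : ℕ) (v : V) : p n v ≤ E.N v := EqNorm.le_ofSup _ _ _ _ _ _ _ n v

theorem N_le {v : V} {b : ℝ} (h : ∀ n, p n v ≤ b) : E.N v ≤ b := EqNorm.ofSup_le _ _ _ _ _ _ _ h

/-- The space of the example. -/
abbrev XX := E.Space

/-- The copies of the unit vectors. -/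
noncomputable def v (n : ℕ) : XX := E.toSpace (0, e n)

theorem signed_sums (F : Finset ℕ) (ε : ℕ → ℝ) (hε : ∀ n, |ε n| ≤ 1) :
    ‖∑ n ∈ F, ε n • v n‖ ≤ 1 := by
  have h1 : ∑ n ∈ F, ε n • v n = E.toSpace (0, ∑ n ∈ F, ε n • e n) := by
    have : ((0 : ℝ), ∑ n ∈ F, ε n • e n) = ∑ n ∈ F, ε n • ((0 : ℝ), e n) := by
      ext1
      · simp [Prod.fst_sum]
      · simp [Prod.snd_sum]
    rw [this, map_sum]
    exact Finset.sum_congr rfl (fun n _ => (map_smul E.toSpace (ε n) ((0 : ℝ), e n)).symm)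
  rw [h1, EqNorm.norm_toSpace]
  apply N_le
  intro i
  have h2 : |(∑ n ∈ F, ε n • e n : c0) i| ≤ 1 := by
    rw [sum_smul_e_apply]
    split_ifs
    · exact hε i
    · simp
  rw [p_le_iff]
  refine ⟨by simp, h2, by simpa using h2⟩

theorem one_le_index : 1 ≤ daugavetIndex XX := by
  apply le_csInf
  · refine ⟨2, by norm_num, E.toSpace (1, 0), ?_, {y : XX | ‖y‖ ≤ 1}, ?_, ⟨0, by simp⟩, ?_⟩
    · rw [EqNorm.norm_toSpace]
      apply le_antisymm
      · apply N_le
        intro i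
        rw [p_le_iff]
        simp
      · exact (p_le_iff.mp (p_le_N 0 (1, 0))).1.trans' (by simp)
    · exact ⟨Set.univ, isOpen_univ, by simp⟩
    · intro y hy
      rw [Metric.mem_closedBall, dist_eq_norm]
      have h1 : ‖E.toSpace ((1 : ℝ), (0 : c0))‖ ≤ 1 := by
        rw [EqNorm.norm_toSpace]
        apply N_le
        intro i
        rw [p_le_iff]
        simp
      have h2 := norm_sub_le y (E.toSpace ((1 : ℝ), (0 : c0)))
      have h3 : ‖y‖ ≤ 1 := hy
      linarith
  · rintro r ⟨-, x, -, W, ⟨U, hU, rfl⟩, ⟨y, hy⟩, hW⟩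
    set a : V := E.toSpace.symm y with ha
    set q : V := E.toSpace.symm x with hq
    set σ : ℝ := if 0 ≤ a.1 then 1 else -1 with hσ
    have hσ1 : |σ| = 1 := by rw [hσ]; split_ifs <;> simp
    have hNa : E.N a ≤ 1 := hy.1
    have hpa := fun i => p_le_iff.mp ((p_le_N i a).trans hNa)
    have hnull : ∀ f : XX →L[ℝ] ℝ, Tendsto (fun n => f (v n)) atTop (𝓝 0) :=
      tendsto_zero_of_signed_sums signed_sums
    have hc : ∀ n, |σ - a.2 n| ≤ 2 := by
      intro n
      have h1 := abs_sub σ (a.2 n)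
      have h2 := (hpa n).2.1
      linarith
    have hev := eventually_mem_of_weaklyNull hU hy.2 hnull hc
    have hyn : ∀ n, y + (σ - a.2 n) • v n = E.toSpace (a + (0, (σ - a.2 n) • e n)) := by
      intro n
      rw [map_add, ha, LinearEquiv.apply_symm_apply]
      congr 1
      rw [v, ← map_smul]
      simp
    have hball : ∀ n, ‖y + (σ - a.2 n) • v n‖ ≤ 1 := by
      intro n
      rw [hyn, EqNorm.norm_toSpace]
      apply N_le
      intro i
      rw [p_le_iff]
      simp only [Prod.fst_add, Prod.snd_add, add_zero, ZeroAtInftyContinuousMap.add_apply,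
        ZeroAtInftyContinuousMap.smul_apply, smul_eq_mul]
      refine ⟨(hpa i).1, ?_⟩
      by_cases hi : i = n
      · subst hi
        rw [e_apply, if_pos rfl, mul_one]
        have h1 : a.2 i + (σ - a.2 i) = σ := by ring
        rw [h1]
        refine ⟨hσ1.le, ?_⟩
        have h2 := abs_le.mp (hpa i).1
        rw [hσ]
        split_ifs with h3
        · rw [abs_le]; constructor <;> linarith
        · push Not at h3
          rw [abs_le]; constructor <;> linarith
      · rw [e_apply, if_neg hi, mul_zero, add_zero]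
        exact (hpa i).2
    have hle : ∀ᶠ n in atTop, |σ - q.2 n| ≤ r := by
      filter_upwards [hev] with n hn
      have h1 := hW ⟨hball n, hn⟩
      rw [Metric.mem_closedBall, dist_eq_norm] at h1
      have h2 : y + (σ - a.2 n) • v n - x = E.toSpace (a + (0, (σ - a.2 n) • e n) - q) := by
        rw [map_sub, ← hyn, hq, LinearEquiv.apply_symm_apply]
      rw [h2, EqNorm.norm_toSpace] at h1
      have h3 := (p_le_iff.mp ((p_le_N n _).trans h1)).2.1
      simp only [Prod.snd_add, Prod.snd_sub, ZeroAtInftyContinuousMap.add_apply,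
        ZeroAtInftyContinuousMap.sub_apply,
        ZeroAtInftyContinuousMap.smul_apply, smul_eq_mul, e_apply, if_true, mul_one] at h3
      have h4 : a.2 n + (σ - a.2 n) - q.2 n = σ - q.2 n := by ring
      rwa [h4] at h3
    have hlim : Tendsto (fun n => |σ - q.2 n|) atTop (𝓝 |σ - 0|) :=
      (tendsto_const_nhds.sub (tendsto_zero q.2)).abs
    rw [sub_zero, hσ1] at hlim
    exact le_of_tendsto hlim hle

theorem small_slice (ε : ℝ) (hε : 0 < ε) :
    ∃ W : Set XX, RelWeaklyOpen W ∧ W.Nonempty ∧ Metric.diam W ≤ 1 + ε := by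
  set f : XX →L[ℝ] ℝ := (ContinuousLinearMap.fst ℝ ℝ c0).comp
    (E.toSpaceCLE.symm : XX →L[ℝ] V) with hf
  have hfa : ∀ x : XX, f x = (E.toSpace.symm x).1 := fun x => rfl
  refine ⟨{y : XX | ‖y‖ ≤ 1 ∧ toWeakSpace ℝ XX y ∈
    {z : WeakSpace ℝ XX | 1 - ε < RCLike.re (f ((toWeakSpace ℝ XX).symm z))}},
    ⟨_, isOpen_weak_re_gt f (1 - ε), rfl⟩, ⟨E.toSpace (1, 0), ?_, ?_⟩, ?_⟩
  · rw [EqNorm.norm_toSpace]
    apply N_le
    intro i
    rw [p_le_iff]
    simp
  · change 1 - ε < f (E.toSpace (1, 0))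
    rw [hfa, LinearEquiv.symm_apply_apply]
    change 1 - ε < 1
    linarith
  · apply Metric.diam_le_of_forall_dist_le (by linarith)
    rintro x ⟨hx1, hx2⟩ y ⟨hy1, hy2⟩
    replace hx2 : 1 - ε < (E.toSpace.symm x).1 := hx2
    replace hy2 : 1 - ε < (E.toSpace.symm y).1 := hy2
    rw [dist_eq_norm, EqNorm.norm_def, map_sub]
    rw [EqNorm.norm_def] at hx1 hy1
    set a : V := E.toSpace.symm x with ha
    set b : V := E.toSpace.symm y with hb
    apply N_le
    intro i
    have h1 := p_le_iff.mp ((p_le_N i a).trans hx1)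
    have h2 := p_le_iff.mp ((p_le_N i b).trans hy1)
    rw [abs_le, abs_le, abs_le] at h1 h2
    rw [p_le_iff, Prod.fst_sub, Prod.snd_sub, ZeroAtInftyContinuousMap.sub_apply]
    refine ⟨?_, ?_, ?_⟩ <;> rw [abs_le] <;> constructor <;> linarith [h1.1.1, h1.1.2, h1.2.1.1,
      h1.2.1.2, h1.2.2.1, h1.2.2.2, h2.1.1, h2.1.2, h2.2.1.1, h2.2.1.2, h2.2.2.1, h2.2.2.2]

/-- **Theorem.** There is a real Banach space `X` with Daugavet index of thickness at least `1`
whose unit ball contains nonempty relatively weakly open subsets of diameter at most `1 + ε`, for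
every `ε > 0`. -/
theorem result : ∃ (X : Type) (_ : NormedAddCommGroup X) (_ : NormedSpace ℝ X)
    (_ : CompleteSpace X), 1 ≤ daugavetIndex X ∧
    ∀ ε : ℝ, 0 < ε → ∃ W : Set X, RelWeaklyOpen W ∧ W.Nonempty ∧ Metric.diam W ≤ 1 + ε :=
  ⟨XX, inferInstance, inferInstance, inferInstance, one_le_index, small_slice⟩

end Pool.Agent.Results.MP_4410f0_an.DiameterLessThanTwo
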